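import Pool.Agent.R339.RC

namespace Pool.Agent.Results.MP_83f734_co.RealQuadraticFive

open Pool.R339.RC

/-- Over every subfield `F ≠ ℚ` of `ℝ`, in particular over every real quadratic field, the set
`Δ_5` has an `F`-relaxation given by five inequalities. -/
theorem result :
    (∀ F : Subfield ℝ, Module.finrank ℚ F = 2 → HasRelaxation F (simplexVertices 5) 5) ∧
    (∀ F : Subfield ℝ, F ≠ ⊥ → HasRelaxation F (simplexVertices 5) 5) := by
  have h : ∀ F : Subfield ℝ, F ≠ ⊥ → HasRelaxation F (simplexVertices 5) 5 := by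
    intro F hF
    obtain ⟨t, ht, hi⟩ := exists_irrational_of_ne_bot hF
    exact hasRelaxation_five F ht hi
  exact ⟨fun F hF => h F (ne_bot_of_finrank hF), h⟩

end Pool.Agent.Results.MP_83f734_co.RealQuadraticFive
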